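import Mathlib
import Pool.Agent.H.MP_515085_an.A

namespace Pool.Agent.Results.MP_515085_an.NotUniform

open Filter Topology Set Pool.Agent.H.MP_515085_an
open scoped ENNReal

/-- `T` admits a dense irregular manifold -/
def DenseIrr {𝕜 X : Type} [RCLike 𝕜] [NormedAddCommGroup X] [NormedSpace 𝕜 X] (T : X →L[𝕜] X) :
    Prop :=
  ∃ Y : Submodule 𝕜 X, Dense (Y : Set X) ∧ ∀ y ∈ Y, y ≠ 0 →
    liminf (fun n => ‖(T ^ n) y‖ₑ) atTop = 0 ∧ limsup (fun n => ‖(T ^ n) y‖ₑ) atTop = ∞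

/-- `T` is densely uniformly Li-Yorke chaotic -/
def DenseUnif {𝕜 X : Type} [RCLike 𝕜] [NormedAddCommGroup X] [NormedSpace 𝕜 X] (T : X →L[𝕜] X) :
    Prop :=
  ∃ S : Set X, Dense S ∧ ¬ S.Countable ∧ ∃ p q : ℕ → ℕ, ∀ x ∈ S, ∀ y ∈ S, x ≠ y →
    Tendsto (fun n => ‖(T ^ p n) x - (T ^ p n) y‖) atTop (𝓝 0) ∧
    Tendsto (fun n => ‖(T ^ q n) x - (T ^ q n) y‖) atTop atTop

def I : Type :=
  {B : Set ℕ // B.Infinite ∧ ∀ᶠ i in (hyperfilter ℕ : Filter ℕ), ∀ b ∈ B, 4 ^ i ≤ b → 4 ^ (i + 1) ≤ b}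

noncomputable def β (B : I) (n : ℕ) : ℕ := sInf {b | b ∈ B.1 ∧ n ≤ b}

lemma β_mem (B : I) (n : ℕ) : β B n ∈ B.1 ∧ n ≤ β B n := by
  obtain ⟨b, hb, h⟩ := B.2.1.exists_gt n
  exact Nat.sInf_mem (s := {b | b ∈ B.1 ∧ n ≤ b}) ⟨b, hb, h.le⟩

lemma β_le (B : I) {n b : ℕ} (hb : b ∈ B.1) (h : n ≤ b) : β B n ≤ b := Nat.sInf_le ⟨hb, h⟩

noncomputable def v (B : I) (n : ℕ) : ℝ := 4 ^ n / 2 ^ β B n

lemma v_pos (B : I) (n : ℕ) : 0 < v B n := by unfold v; positivity

lemma v_succ (B : I) (n : ℕ) : v B (n + 1) / v B n ≤ 4 := by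
  rw [div_le_iff₀ (v_pos B n), v, v, pow_succ', mul_div_assoc]
  gcongr
  · norm_num
  · exact β_le B (β_mem B _).1 ((Nat.le_succ n).trans (β_mem B _).2)

lemma v_mem (B : I) {b : ℕ} (hb : b ∈ B.1) : v B b = 2 ^ b := by
  rw [v, (β_le B hb le_rfl).antisymm (β_mem B b).2, ← div_pow]; norm_num

lemma v_small (B : I) (j : ℕ) :
    Tendsto (fun i => v B (j + 4 ^ i)) (hyperfilter ℕ : Filter ℕ) (𝓝 0) := by
  have h4 : Tendsto (fun i : ℕ => 4 ^ i) atTop atTop := tendsto_pow_atTop_atTop_of_one_lt (by norm_num)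
  have h1 : Tendsto (fun i : ℕ => (4 : ℝ) ^ j * (1 / 4) ^ 4 ^ i) atTop (𝓝 0) := by
    simpa using ((tendsto_pow_atTop_nhds_zero_of_lt_one (r := (1 / 4 : ℝ)) (by norm_num)
      (by norm_num)).comp h4).const_mul ((4 : ℝ) ^ j)
  refine squeeze_zero' (Eventually.of_forall fun i => (v_pos _ _).le) ?_
    (h1.mono_left (Nat.hyperfilter_le_atTop))
  filter_upwards [B.2.2] with i hi
  have := hi _ (β_mem B (j + 4 ^ i)).1 (le_add_self.trans (β_mem B _).2)
  calc v B (j + 4 ^ i) ≤ 4 ^ (j + 4 ^ i) / 2 ^ 4 ^ (i + 1) := by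
        unfold v; gcongr; norm_num
    _ = _ := by
        rw [pow_succ' 4 i, pow_mul, pow_add, mul_div_assoc, ← div_pow]; norm_num

lemma exists_B {p : ℕ → ℕ} (hp : Tendsto p atTop atTop) : ∃ B : I, ∃ᶠ n in atTop, p n ∈ B.1 := by
  have hb : Tendsto (fun n => Nat.log 4 (p n)) atTop atTop := by
    have : Tendsto (Nat.log 4) atTop atTop :=
      tendsto_atTop_atTop.2 fun k => ⟨4 ^ k, fun m hm => Nat.le_log_of_pow_le (by norm_num) hm⟩
    exact this.comp hp
  obtain ⟨φ, hφ, hm⟩ := strictMono_subseq_of_tendsto_atTop hb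
  obtain ⟨A, hA, hf⟩ : ∃ A ∈ hyperfilter ℕ, ∃ᶠ n in atTop, Nat.log 4 (p n) ∉ A := by
    rcases (hyperfilter ℕ).mem_or_compl_mem (range fun k => Nat.log 4 (p (φ (2 * k)))) with h | h
    · refine ⟨_, h, (hφ.tendsto_atTop.comp (f := fun k => 2 * k + 1)
        (tendsto_atTop_mono (fun k => by simp; omega) tendsto_id)).frequently
        (Eventually.of_forall ?_).frequently⟩
      rintro k ⟨l, hl⟩
      have : 2 * l = 2 * k + 1 := hm.injective hl
      omega
    · exact ⟨_, h, (hφ.tendsto_atTop.comp (f := fun k => 2 * k)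
        (tendsto_atTop_mono (fun k => by simp; omega) tendsto_id)).frequently
        (Eventually.of_forall fun k hk => hk ⟨k, rfl⟩).frequently⟩
  refine ⟨⟨{b | Nat.log 4 b ∉ A}, ?_, ?_⟩, hf⟩
  · exact Nat.frequently_atTop_iff_infinite.1 (hp.frequently hf)
  · filter_upwards [hA] with i hi b hb h
    by_contra h'
    exact hb (by rwa [Nat.log_eq_of_pow_le_of_lt_pow h (not_le.1 h')])

variable (𝕜 : Type) [RCLike 𝕜]

lemma σ_inj : Function.Injective fun i : I × ℕ => (i.1, i.2 + 1) := fun a b h => by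
  simp only [Prod.mk.injEq, add_left_inj] at h
  exact Prod.ext h.1 h.2

noncomputable def T : lp (fun _ : I × ℕ => 𝕜) 1 →L[𝕜] lp (fun _ : I × ℕ => 𝕜) 1 :=
  shift σ_inj (fun i => ((v i.1 (i.2 + 1) / v i.1 i.2 : ℝ) : 𝕜)) 4 fun i => by
    rw [RCLike.norm_ofReal, abs_of_pos (div_pos (v_pos _ _) (v_pos _ _))]
    exact v_succ _ _

lemma step (B : I) (j n : ℕ) (c : 𝕜) : ((v B (j + n + 1) / v B (j + n) : ℝ) : 𝕜) *
    (((v B (j + n) / v B j : ℝ) : 𝕜) * c) = ((v B (j + (n + 1)) / v B j : ℝ) : 𝕜) * c := by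
  rw [← mul_assoc, ← RCLike.ofReal_mul, div_mul_div_cancel₀ (v_pos _ _).ne', add_assoc]

lemma T_pow (x : lp (fun _ : I × ℕ => 𝕜) 1) (B : I) (j n : ℕ) :
    (T 𝕜 ^ n) x (B, j + n) = ((v B (j + n) / v B j : ℝ) : 𝕜) * x (B, j) := by
  induction n with
  | zero => simp [(v_pos B j).ne']
  | succ n ih =>
    rw [pow_succ', mul_apply_eq_comp, ← step, ← ih]
    exact shift_apply σ_inj _ _ _ _ (B, j + n)

open Classical in
lemma T_single (B : I) (j n : ℕ) (c : 𝕜) : (T 𝕜 ^ n) (lp.single 1 (B, j) c) =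
    lp.single 1 (B, j + n) (((v B (j + n) / v B j : ℝ) : 𝕜) * c) := by
  induction n with
  | zero => simp [(v_pos B j).ne']
  | succ n ih =>
    rw [pow_succ', mul_apply_eq_comp, ih, ← step]
    exact shift_single σ_inj _ _ _ (B, j + n) _

lemma T_low (x : lp (fun _ : I × ℕ => 𝕜) 1) (B : I) (j n : ℕ) :
    v B (j + n) / v B j * ‖x (B, j)‖ ≤ ‖(T 𝕜 ^ n) x‖ := by
  have := lp.norm_apply_le_norm one_ne_zero ((T 𝕜 ^ n) x) (B, j + n)
  rwa [T_pow, norm_mul, RCLike.norm_ofReal, abs_of_pos (div_pos (v_pos _ _) (v_pos _ _))] at this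

lemma irr : DenseIrr (T 𝕜) := by
  classical
  let Y : Submodule 𝕜 (lp (fun _ : I × ℕ => 𝕜) 1) :=
    { carrier := {y | Tendsto (fun i => (T 𝕜 ^ 4 ^ i) y) (hyperfilter ℕ : Filter ℕ) (𝓝 0)}
      zero_mem' := by simp
      add_mem' := fun ha hb => by simpa using Tendsto.add ha hb
      smul_mem' := fun c _ ha => by
        have := Tendsto.const_smul ha c
        rw [smul_zero] at this
        exact this.congr fun i => (map_smul _ _ _).symm }
  refine ⟨Y, fun x => ?_, fun y hy h0 => ⟨?_, ?_⟩⟩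
  · refine mem_closure_of_tendsto (lp.hasSum_single (by simp) x) (Eventually.of_forall fun s => ?_)
    refine Y.sum_mem fun i _ => tendsto_zero_iff_norm_tendsto_zero.2 ?_
    obtain ⟨B, j⟩ := i
    have := ((v_small B j).div_const (v B j)).mul_const ‖x (B, j)‖
    rw [zero_div, zero_mul] at this
    refine this.congr fun i => ?_
    rw [T_single, lp.norm_single (by simp), norm_mul, RCLike.norm_ofReal,
      abs_of_pos (div_pos (v_pos _ _) (v_pos _ _))]
  · refine le_antisymm (le_of_forall_gt_imp_ge_of_dense fun ε hε => ?_) bot_le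
    have h1 : Tendsto (fun i => ‖(T 𝕜 ^ 4 ^ i) y‖ₑ) (hyperfilter ℕ : Filter ℕ) (𝓝 0) := by
      simpa using Tendsto.enorm hy
    exact liminf_le_of_frequently_le' ((tendsto_pow_atTop_atTop_of_one_lt (r := 4)
      (by norm_num)).frequently ((h1.eventually (ge_mem_nhds hε)).frequently.filter_mono
        Nat.hyperfilter_le_atTop))
  · obtain ⟨⟨B, j⟩, hi⟩ : ∃ i, y i ≠ 0 := by
      by_contra h
      push Not at h
      exact h0 (lp.ext (funext h))
    refine ENNReal.eq_top_of_forall_nnreal_le fun c => le_limsup_of_frequently_le' ?_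
    have h2' : Tendsto (fun n : ℕ => (2 : ℝ) ^ (j + n)) atTop atTop :=
      (tendsto_pow_atTop_atTop_of_one_lt (one_lt_two (α := ℝ))).comp
        (tendsto_atTop_mono (fun n => Nat.le_add_left n j) tendsto_id)
    have h2 : Tendsto (fun n : ℕ => (2 : ℝ) ^ (j + n) / v B j * ‖y (B, j)‖) atTop atTop :=
      (h2'.atTop_div_const (v_pos B j)).atTop_mul_const (norm_pos_iff.2 hi)
    have h3 : ∃ᶠ n in atTop, j + n ∈ B.1 := by
      refine frequently_atTop.2 fun a => ?_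
      exact ⟨β B (j + a) - j, by have := (β_mem B (j + a)).2; omega, by
        have := β_mem B (j + a)
        rw [show j + (β B (j + a) - j) = β B (j + a) by omega]; exact this.1⟩
    refine (h3.and_eventually (h2.eventually_ge_atTop c)).mono fun n hn => ?_
    have := T_low 𝕜 y B j n
    rw [v_mem B hn.1] at this
    rw [← ofReal_norm, ← ENNReal.ofReal_coe_nnreal]
    exact ENNReal.ofReal_le_ofReal (hn.2.trans this)

lemma not_unif : ¬ DenseUnif (T 𝕜) := by
  classical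
  rintro ⟨S, hS, -, p, q, h⟩
  have key : ∀ B : I, Tendsto (fun n => v B (p n)) atTop (𝓝 0) := by
    intro B
    obtain ⟨x, hx, hx'⟩ := hS.exists_dist_lt 0 (by norm_num : (0 : ℝ) < 1 / 2)
    obtain ⟨y, hy, hy'⟩ := hS.exists_dist_lt (lp.single 1 (B, 0) 1) (by norm_num : (0 : ℝ) < 1 / 2)
    have h1 : (x - y) (B, 0) ≠ 0 := by
      intro e
      have a1 := lp.norm_apply_le_norm one_ne_zero (x - y + lp.single 1 (B, 0) 1) (B, 0)
      rw [lp.coeFn_add, Pi.add_apply, e, lp.single_apply_self, zero_add, norm_one] at a1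
      rw [dist_comm, dist_zero_right] at hx'
      rw [dist_eq_norm] at hy'
      have := norm_add_le x (lp.single 1 (B, 0) 1 - y)
      rw [show x + (lp.single 1 (B, 0) 1 - y) = x - y + lp.single 1 (B, 0) 1 by abel] at this
      linarith
    have h2 := ((h x hx y hy fun e => h1 (by simp [e])).1.mul_const (v B 0)).div_const ‖(x - y) (B, 0)‖
    rw [zero_mul, zero_div] at h2
    refine squeeze_zero (fun n => (v_pos _ _).le) (fun n => ?_) h2
    have := T_low 𝕜 (x - y) B 0 (p n)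
    rw [zero_add, map_sub, div_mul_eq_mul_div, div_le_iff₀ (v_pos B 0)] at this
    rwa [le_div_iff₀ (norm_pos_iff.2 h1)]
  obtain ⟨B₀, -⟩ := exists_B tendsto_id
  have hp : Tendsto p atTop atTop := by
    rw [← Nat.cofinite_eq_atTop]
    refine Tendsto.cofinite_of_finite_preimage_singleton fun a => ?_
    have := (key B₀).eventually (gt_mem_nhds (v_pos B₀ a))
    rw [← Nat.cofinite_eq_atTop] at this
    refine (eventually_cofinite.1 this).subset fun n hn => ?_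
    simp [show p n = a from hn]
  obtain ⟨B, hB⟩ := exists_B hp
  obtain ⟨n, h1, h2⟩ := (hB.and_eventually ((key B).eventually (gt_mem_nhds one_pos))).exists
  rw [v_mem B h1] at h2
  exact absurd h2 (not_lt.2 (one_le_pow₀ one_le_two))

theorem result (𝕜 : Type) [RCLike 𝕜] :
    ∃ (X : Type) (_ : NormedAddCommGroup X) (_ : NormedSpace 𝕜 X) (_ : CompleteSpace X)
      (T : X →L[𝕜] X), DenseIrr T ∧ ¬ DenseUnif T :=
  ⟨_, _, _, inferInstance, T 𝕜, irr 𝕜, not_unif 𝕜⟩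

end Pool.Agent.Results.MP_515085_an.NotUniform
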